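import Mathlib
import Pool.Agent.Helper58_UB.Base

/-! # UBT: module statements (MP_160b6c_nt, candidate (A)) -/

open Polynomial NumberField IsDedekindDomain
open H58Q

namespace UBT

/-- there is exactly (at most) one prime of `𝓞 L` above `v` -/
def Nonsplit (K L : Type) [Field K] [NumberField K] [Field L] [NumberField L] [Algebra K L]
    (v : Ideal (𝓞 K)) : Prop :=
  ∀ P Q : Ideal (𝓞 L), P.IsPrime → Q.IsPrime → P.LiesOver v → Q.LiesOver v → P = Q

/-- CH3: Galois case of prime degree -/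
def CH3Stmt : Prop := ∀ (K L : Type) [Field K] [NumberField K] [Field L] [NumberField L]
    [Algebra K L] [IsGalois K L], (Module.finrank K L).Prime → ∀ B : ℕ,
    ∃ p : ℕ, p.Prime ∧ B < p ∧ ∃ v : Ideal (𝓞 K), v.IsPrime ∧ ((p : ℕ) : 𝓞 K) ∈ v ∧
      Nonsplit K L v

/-- CHEB: arbitrary extension of prime degree -/
def ChebStmt : Prop := ∀ (K L : Type) [Field K] [NumberField K] [Field L] [NumberField L]
    [Algebra K L], (Module.finrank K L).Prime → ∀ B : ℕ,
    ∃ p : ℕ, p.Prime ∧ B < p ∧ ∃ v : Ideal (𝓞 K), v.IsPrime ∧ ((p : ℕ) : 𝓞 K) ∈ v ∧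
      Nonsplit K L v

/-- TRANS: at a nonsplit prime all differences of conjugates have the same valuation -/
def TransStmt : Prop := ∀ (K L E : Type) [Field K] [NumberField K] [Field L] [NumberField L]
    [Field E] [NumberField E] [Algebra K L] [Algebra K E], (Module.finrank K L).Prime →
    ∀ (v : Ideal (𝓞 K)), v.IsPrime → Nonsplit K L v →
    ∀ (w : HeightOneSpectrum (𝓞 E)), w.asIdeal.LiesOver v →
    ∀ θ : L, θ ∉ (algebraMap K L).range →
    ((minpoly K θ).map (algebraMap K E)).Splits →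
    ∀ a b c d : E, aeval a (minpoly K θ) = 0 → aeval b (minpoly K θ) = 0 →
      aeval c (minpoly K θ) = 0 → aeval d (minpoly K θ) = 0 → a ≠ b → c ≠ d →
      w.valuation E (a - b) = w.valuation E (c - d)

/-- BC1: descent of principality along a field extension -/
def BC1Stmt : Prop := ∀ (F F' : Type) [Field F] [Field F'] (φ : F →+* F') (f : F[X]),
    Odd f.natDegree → ∀ I : Ideal (Q F f), I ≠ ⊥ →
    (I.map (Q.map φ f)).IsPrincipal → I.IsPrincipal

/-- BC2: orders of classes along a map reflecting principality -/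
def BC2Stmt : Prop := ∀ (R S : Type) [CommRing R] [IsDomain R] [IsDedekindDomain R]
    [CommRing S] [IsDomain S] [IsDedekindDomain S] (ψ : R →+* S), Function.Injective ψ →
    (∀ I : Ideal R, I ≠ ⊥ → (I.map ψ).IsPrincipal → I.IsPrincipal) →
    ∀ c : ClassGroup R, ∃ c' : ClassGroup S, orderOf c' = orderOf c

/-- ISO: affine change of variables -/
def IsoStmt : Prop := ∀ (E : Type) [Field E] (F : E[X]) (u s α : E), u ≠ 0 → s ≠ 0 →
    Nonempty (Q E F ≃+* Q E (C ((s ^ 2)⁻¹) * F.comp (C u * X + C α)))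

/-- DED: the coordinate ring over a field is a Dedekind domain -/
def DedStmt : Prop := ∀ (F : Type) [Field F] (f : F[X]) [Fact (Odd f.natDegree)],
    (2 : F) ≠ 0 → Squarefree f → IsDedekindDomain (Q F f)

/-- LOC: good reduction bounds the prime-to-`p` part of torsion -/
def LocStmt : Prop := ∀ (V M : Type) [CommRing V] [IsDomain V] [IsDiscreteValuationRing V]
    [Field M] [Algebra V M] [IsFractionRing V M] [Finite (IsLocalRing.ResidueField V)]
    (p : ℕ) [Fact p.Prime] [CharP (IsLocalRing.ResidueField V) p], p ≠ 2 →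
    ∀ (f : V[X]) (g : ℕ), f.Monic → f.natDegree = 2 * g + 1 →
    (f.map (IsLocalRing.residue V)).Separable →
    ∀ [Fact (Odd (f.map (algebraMap V M)).natDegree)]
      (c : ClassGroup (Q M (f.map (algebraMap V M)))), IsOfFinOrder c →
    ∃ m a : ℕ, orderOf c = m * p ^ a ∧ 1 ≤ m ∧
      m ≤ 2 ^ ((Nat.card (IsLocalRing.ResidueField V)) ^ (3 * g + 2))

/-- GLB: the same at a prime of a number field -/
def GlbStmt : Prop := ∀ (E : Type) [Field E] [NumberField E] (w : HeightOneSpectrum (𝓞 E))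
    (p : ℕ) [Fact p.Prime], p ≠ 2 → ((p : ℕ) : 𝓞 E) ∈ w.asIdeal →
    ∀ (G : E[X]) (g : ℕ), G.Monic → G.natDegree = 2 * g + 1 → G.Splits → G.Separable →
    (∀ a ∈ G.roots, w.valuation E a ≤ 1) →
    (∀ a ∈ G.roots, ∀ b ∈ G.roots, a ≠ b → w.valuation E (a - b) = 1) →
    ∀ [Fact (Odd G.natDegree)] (c : ClassGroup (Q E G)), IsOfFinOrder c →
    ∃ m a : ℕ, orderOf c = m * p ^ a ∧ 1 ≤ m ∧
      m ≤ 2 ^ ((p ^ (Module.finrank ℚ E)) ^ (3 * g + 2))

/-- HER: finitely many extensions of bounded discriminant inside the algebraic closure -/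
def HerStmt : Prop := ∀ (K : Type) [Field K] [NumberField K] (Δ : ℕ),
    ∃ S : Finset (IntermediateField K (AlgebraicClosure K)),
      (∀ F ∈ S, FiniteDimensional K F) ∧
      ∀ (L : Type) [Field L] [NumberField L] [Algebra K L], |NumberField.discr L| ≤ Δ →
        ∃ F ∈ S, Nonempty (L ≃ₐ[K] F)

/-- EXT1: splitting field -/
def Ext1Stmt : Prop := ∀ (K₁ : Type) [Field K₁] [NumberField K₁] (F : K₁[X]), F ≠ 0 →
    ∃ (E : Type) (_ : Field E) (_ : NumberField E) (_ : Algebra K₁ E),
      (F.map (algebraMap K₁ E)).Splits ∧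
      Module.finrank K₁ E ≤ F.natDegree.factorial

/-- EXT2: square roots -/
def Ext2Stmt : Prop := ∀ (K₁ : Type) [Field K₁] [NumberField K₁] (t : K₁),
    ∃ (E : Type) (_ : Field E) (_ : NumberField E) (_ : Algebra K₁ E) (s : E),
      s ^ 2 = algebraMap K₁ E t ∧ Module.finrank K₁ E ≤ 2

/-- An odd-degree hyperelliptic curve `y² = f(x)` over `k` (`f` squarefree). -/
structure OddCurve (k : Type) [Field k] where
  f : k[X]
  odd : Odd f.natDegree
  sqfree : Squarefree f

instance {k : Type} [Field k] (C : OddCurve k) : Fact (Odd C.f.natDegree) := ⟨C.odd⟩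

/-- The group `J(k)` of `k`-rational points of the Jacobian: the class group of the affine
coordinate ring (the curve has exactly one point at infinity, and it is rational). -/
abbrev OddCurve.Jac {k : Type} [Field k] (C : OddCurve k) : Type := ClassGroup (Q k C.f)

/-- the final theorem -/
def FinalStmt : Prop := ∀ (K : Type) [Field K] [NumberField K] (n D Δ : ℕ), n.Prime → n ≠ 2 →
    ∃ B : ℕ, ∀ (L : Type) [Field L] [NumberField L] [Algebra K L],
      Module.finrank K L = n → |NumberField.discr L| ≤ Δ →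
      ∀ θ : L, θ ∉ (algebraMap K L).range →
      ∀ (K₁ : Type) [Field K₁] [NumberField K₁] [Algebra K K₁], Module.finrank K K₁ ≤ D →
      ∀ e : K₁, e ≠ 0 → ∀ C : OddCurve K₁,
        C.f = Polynomial.C e * (minpoly K θ).map (algebraMap K K₁) →
        ∀ c : C.Jac, IsOfFinOrder c → orderOf c ≤ B

end UBT
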