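import Mathlib

/-! # UBT: abstract counting contradiction -/

namespace Pool.Agent.UBT

open Finset

/-- If a set with a norm has linear growth (two-sided) then the set of pairs with the product norm
cannot inject norm-preservingly into a set of at most linear growth. -/
theorem no_pair_injection {X Y : Type*} (NX : X → ℕ) (NY : Y → ℕ) (hX1 : ∀ x, 1 ≤ NX x)
    (finX : ∀ t : ℝ, {x | (NX x : ℝ) ≤ t}.Finite) (finY : ∀ t : ℝ, {y | (NY y : ℝ) ≤ t}.Finite)
    (c C C' t₀ : ℝ) (hc : 0 < c) (ht0 : 1 ≤ t₀)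
    (hlow : ∀ t, t₀ ≤ t → c * t ≤ ({x | (NX x : ℝ) ≤ t}.ncard : ℝ))
    (hup : ∀ t, 1 ≤ t → ({x | (NX x : ℝ) ≤ t}.ncard : ℝ) ≤ C * t)
    (hupY : ∀ t, 1 ≤ t → ({y | (NY y : ℝ) ≤ t}.ncard : ℝ) ≤ C' * t)
    (φ : X × X → Y) (hinj : Function.Injective φ)
    (hN : ∀ x x', NY (φ (x, x')) = NX x * NX x') : False := by
  classical
  have hNpos : ∀ x, (0 : ℝ) < NX x := fun x => by exact_mod_cast hX1 x
  set F : ℝ → Finset X := fun t => (finX t).toFinset with hF
  have memF : ∀ t x, x ∈ F t ↔ (NX x : ℝ) ≤ t := fun t x => by simp [hF]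
  have cardF : ∀ t, (({x | (NX x : ℝ) ≤ t}.ncard : ℕ)) = (F t).card := fun t => by
    rw [Set.ncard_eq_toFinset_card _ (finX t)]
  -- upper bound for the harmonic sums
  have hsum : ∀ u : ℝ, 1 ≤ u → ∑ x ∈ F u, (1 / (NX x : ℝ)) ≤ C' / c := by
    intro u hu
    set T := u * t₀ with hT
    have hT1 : 1 ≤ T := by nlinarith
    let P : Finset (Σ _ : X, X) := (F u).sigma (fun x => F (T / NX x))
    have hPcard : (P.card : ℝ) ≤ C' * T := by
      refine le_trans ?_ (hupY T hT1)
      rw [Set.ncard_eq_toFinset_card _ (finY T)]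
      norm_cast
      refine Finset.card_le_card_of_injOn (fun p => φ (p.1, p.2)) ?_ ?_
      · intro p hp
        have hp' := Finset.mem_sigma.mp (Finset.mem_coe.mp hp)
        have h2 := (memF _ _).mp hp'.2
        rw [le_div_iff₀ (hNpos _)] at h2
        simp only [Set.Finite.coe_toFinset, Set.mem_ofPred_eq, hN]
        push_cast
        linarith [mul_comm (NX p.1 : ℝ) (NX p.2 : ℝ)]
      · rintro ⟨a, b⟩ _ ⟨a', b'⟩ _ h
        have := hinj h
        simp only [Prod.mk.injEq] at this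
        obtain ⟨rfl, rfl⟩ := this
        rfl
    have hP2 : ∑ x ∈ F u, c * (T / NX x) ≤ (P.card : ℝ) := by
      rw [Finset.card_sigma]
      push_cast
      refine Finset.sum_le_sum fun x hx => ?_
      have hx' := (memF _ _).mp hx
      have h3 : t₀ ≤ T / NX x := by
        rw [le_div_iff₀ (hNpos _), hT]
        nlinarith
      have := hlow _ h3
      rwa [cardF] at this
    have h4 : ∑ x ∈ F u, c * (T / NX x) = c * T * ∑ x ∈ F u, (1 / (NX x : ℝ)) := by
      rw [Finset.mul_sum]
      refine Finset.sum_congr rfl fun x _ => ?_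
      ring
    rw [h4] at hP2
    rw [le_div_iff₀ hc]
    have h5 : c * T * ∑ x ∈ F u, (1 / (NX x : ℝ)) ≤ C' * T := hP2.trans hPcard
    have hT0 : 0 < T := by linarith
    have : (∑ x ∈ F u, (1 / (NX x : ℝ)) * c) * T ≤ C' * T := by
      rw [← Finset.sum_mul]; nlinarith
    have h6 := le_of_mul_le_mul_right this hT0
    rwa [← Finset.sum_mul] at h6
  -- divergence
  have hC0 : 0 < C := by
    have h1 := hlow t₀ le_rfl
    have h2 := hup t₀ ht0
    nlinarith
  set M := (C + 1) / c + 1 with hM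
  have hM1 : 1 < M := by
    have : 0 < (C + 1) / c := by positivity
    linarith
  have hcM : c * M - C ≥ 1 := by
    have : c * M = C + 1 + c := by rw [hM]; field_simp
    linarith
  have hMk : ∀ k : ℕ, (1 : ℝ) ≤ M ^ k := fun k => one_le_pow₀ hM1.le
  have hstep : ∀ k : ℕ, (k : ℝ) * (1 / M) ≤ ∑ x ∈ F (t₀ * M ^ k), (1 / (NX x : ℝ)) := by
    intro k
    induction k with
    | zero =>
      simp only [Nat.cast_zero, zero_mul]
      exact Finset.sum_nonneg fun x _ => by positivity
    | succ k ih =>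
      have hsub : F (t₀ * M ^ k) ⊆ F (t₀ * M ^ (k + 1)) := by
        intro x hx
        rw [memF] at hx ⊢
        refine hx.trans ?_
        have : M ^ k ≤ M ^ (k + 1) := pow_le_pow_right₀ hM1.le (Nat.le_succ k)
        nlinarith
      rw [← Finset.sum_sdiff hsub]
      have hpos : 0 < t₀ * M ^ (k + 1) := by
        have := hMk (k + 1); nlinarith
      have h1 : (1 / M : ℝ) ≤ ∑ x ∈ F (t₀ * M ^ (k + 1)) \ F (t₀ * M ^ k), (1 / (NX x : ℝ)) := by
        have h2 : ∑ x ∈ F (t₀ * M ^ (k + 1)) \ F (t₀ * M ^ k), (1 / (t₀ * M ^ (k + 1)) : ℝ) ≤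
            ∑ x ∈ F (t₀ * M ^ (k + 1)) \ F (t₀ * M ^ k), (1 / (NX x : ℝ)) := by
          refine Finset.sum_le_sum fun x hx => ?_
          have hx' := (memF _ _).mp (Finset.mem_sdiff.mp hx).1
          exact one_div_le_one_div_of_le (hNpos x) hx'
        refine le_trans ?_ h2
        rw [Finset.sum_const, nsmul_eq_mul, Finset.card_sdiff_of_subset hsub,
          Nat.cast_sub (Finset.card_le_card hsub)]
        have e1 := hlow (t₀ * M ^ (k + 1)) (by have := hMk (k + 1); nlinarith)
        have e2 := hup (t₀ * M ^ k) (by have := hMk k; nlinarith)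
        rw [cardF] at e1 e2
        rw [mul_one_div, div_le_div_iff₀ (by linarith) hpos]
        have e3 : t₀ * M ^ (k + 1) = (t₀ * M ^ k) * M := by ring
        rw [e3] at e1 ⊢
        have hb : 1 ≤ t₀ * M ^ k := by have := hMk k; nlinarith
        have e4 : (t₀ * M ^ k) * (c * M - C) ≤
            ((F (t₀ * M ^ k * M)).card : ℝ) - ((F (t₀ * M ^ k)).card : ℝ) := by nlinarith
        have e5 : (t₀ * M ^ k) ≤
            ((F (t₀ * M ^ k * M)).card : ℝ) - ((F (t₀ * M ^ k)).card : ℝ) := by nlinarith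
        nlinarith
      push_cast
      linarith
  obtain ⟨k, hk⟩ := exists_nat_gt (C' / c * M)
  have h1 := hstep k
  have h2 := hsum (t₀ * M ^ k) (by have := hMk k; nlinarith)
  have h3 : (k : ℝ) * (1 / M) ≤ C' / c := h1.trans h2
  rw [mul_one_div, div_le_iff₀ (by linarith)] at h3
  linarith

end Pool.Agent.UBT
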