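import Mathlib

/-! # UBT: the density of the ideals coprime to a finite set of primes is positive -/

namespace Pool.Agent.UBT

open Ideal NumberField Filter Topology
open scoped nonZeroDivisors

variable (K : Type*) [Field K] [NumberField K]

/-- nonzero ideals of norm at most `t` not divisible by the primes in `T` -/
def cop (T : Finset (Ideal (𝓞 K))) (t : ℝ) : Set (Ideal (𝓞 K)) :=
  {I | I ≠ ⊥ ∧ ((absNorm I : ℕ) : ℝ) ≤ t ∧ ∀ 𝔟 ∈ T, ¬ 𝔟 ∣ I}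

variable {K}

lemma finite_norm_le (t : ℝ) : {I : Ideal (𝓞 K) | ((absNorm I : ℕ) : ℝ) ≤ t}.Finite := by
  refine (Ideal.finite_setOfPred_absNorm_le (S := 𝓞 K) ⌊t⌋₊).subset ?_
  intro I hI
  have hI' : ((absNorm I : ℕ) : ℝ) ≤ t := hI
  exact Nat.le_floor hI'

lemma cop_finite (T : Finset (Ideal (𝓞 K))) (t : ℝ) : (cop K T t).Finite :=
  (finite_norm_le t).subset fun _ hI => hI.2.1

lemma cop_empty_tendsto : ∃ ρ : ℝ, 0 < ρ ∧
    Tendsto (fun t : ℝ => ((cop K ∅ t).ncard : ℝ) / t) atTop (𝓝 ρ) := by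
  refine ⟨_, dedekindZeta_residue_pos K, ?_⟩
  rw [dedekindZeta_residue_def]
  refine (NumberField.Ideal.tendsto_norm_le_div_atTop₀ K).congr fun t => ?_
  congr 2
  rw [← Nat.card_coe_set_eq]
  refine Nat.card_congr ⟨fun I => ⟨I.1.1, ?_, I.2, by simp⟩, fun I => ⟨⟨I.1, ?_⟩, I.2.2.1⟩, ?_, ?_⟩
  · exact nonZeroDivisors.coe_ne_zero I.1
  · exact mem_nonZeroDivisors_iff_ne_zero.mpr I.2.1
  · intro I; rfl
  · intro I; rfl

/-- removing one more prime -/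
lemma cop_insert [DecidableEq (Ideal (𝓞 K))] (T : Finset (Ideal (𝓞 K)))
    (hT : ∀ 𝔟 ∈ T, Prime 𝔟) (𝔟 : Ideal (𝓞 K)) (hb : Prime 𝔟) (hbT : 𝔟 ∉ T) (t : ℝ) :
    ((cop K (insert 𝔟 T) t).ncard : ℝ) =
      ((cop K T t).ncard : ℝ) - ((cop K T (t / (absNorm 𝔟 : ℕ))).ncard : ℝ) := by
  have hNb : 0 < absNorm 𝔟 := by
    rw [Nat.pos_iff_ne_zero]
    exact fun h => hb.ne_zero (Ideal.absNorm_eq_zero_iff.mp h)
  have hsub : cop K (insert 𝔟 T) t ⊆ cop K T t := fun I hI =>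
    ⟨hI.1, hI.2.1, fun 𝔠 hc => hI.2.2 𝔠 (Finset.mem_insert_of_mem hc)⟩
  have himg : cop K T t \ cop K (insert 𝔟 T) t = (fun J => 𝔟 * J) '' cop K T (t / (absNorm 𝔟 : ℕ)) := by
    ext I
    constructor
    · rintro ⟨h1, h2⟩
      have hdiv : 𝔟 ∣ I := by
        by_contra hnd
        refine h2 ⟨h1.1, h1.2.1, fun 𝔠 hc => ?_⟩
        rcases Finset.mem_insert.mp hc with rfl | hc
        · exact hnd
        · exact h1.2.2 𝔠 hc
      obtain ⟨J, rfl⟩ := hdiv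
      refine ⟨J, ⟨?_, ?_, ?_⟩, rfl⟩
      · rintro rfl; exact h1.1 (by simp)
      · have := h1.2.1
        rw [map_mul] at this
        push_cast at this
        rw [le_div_iff₀ (by exact_mod_cast hNb)]
        linarith [mul_comm ((absNorm 𝔟 : ℕ) : ℝ) ((absNorm J : ℕ) : ℝ)]
      · intro 𝔠 hc hdvd
        exact h1.2.2 𝔠 hc (hdvd.mul_left 𝔟)
    · rintro ⟨J, hJ, rfl⟩
      refine ⟨⟨mul_ne_zero hb.ne_zero hJ.1, ?_, ?_⟩, ?_⟩
      · have := hJ.2.1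
        rw [le_div_iff₀ (by exact_mod_cast hNb)] at this
        rw [map_mul]
        push_cast
        linarith [mul_comm ((absNorm 𝔟 : ℕ) : ℝ) ((absNorm J : ℕ) : ℝ)]
      · intro 𝔠 hc hdvd
        rcases (hT 𝔠 hc).dvd_or_dvd hdvd with h | h
        · have hass : Associated 𝔠 𝔟 := (hT 𝔠 hc).associated_of_dvd hb h
          rw [associated_iff_eq] at hass
          exact hbT (hass ▸ hc)
        · exact hJ.2.2 𝔠 hc h
      · intro h
        exact h.2.2 𝔟 (Finset.mem_insert_self _ _) (dvd_mul_right _ _)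
  have hinj : Function.Injective (fun J : Ideal (𝓞 K) => 𝔟 * J) := by
    intro J J' h
    exact mul_left_cancel₀ hb.ne_zero h
  have h1 := Set.ncard_sdiff_add_ncard_of_subset hsub (cop_finite T t)
  rw [himg, Set.ncard_image_of_injective _ hinj] at h1
  have : ((cop K T t).ncard : ℝ) = ((cop K T (t / (absNorm 𝔟 : ℕ))).ncard : ℝ) +
      ((cop K (insert 𝔟 T) t).ncard : ℝ) := by exact_mod_cast h1.symm
  linarith

theorem cop_tendsto (T : Finset (Ideal (𝓞 K))) (hT : ∀ 𝔟 ∈ T, Prime 𝔟) : ∃ ρ : ℝ, 0 < ρ ∧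
    Tendsto (fun t : ℝ => ((cop K T t).ncard : ℝ) / t) atTop (𝓝 ρ) := by
  classical
  induction T using Finset.induction_on with
  | empty => exact cop_empty_tendsto
  | insert 𝔟 T hbT ih =>
    obtain ⟨ρ, hρ, hlim⟩ := ih fun 𝔠 hc => hT 𝔠 (Finset.mem_insert_of_mem hc)
    have hb : Prime 𝔟 := hT 𝔟 (Finset.mem_insert_self _ _)
    have hT' : ∀ 𝔠 ∈ T, Prime 𝔠 := fun 𝔠 hc => hT 𝔠 (Finset.mem_insert_of_mem hc)
    have hNb : 1 < absNorm 𝔟 := by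
      have h0 : absNorm 𝔟 ≠ 0 := fun h => hb.ne_zero (Ideal.absNorm_eq_zero_iff.mp h)
      have h1 : absNorm 𝔟 ≠ 1 := fun h => hb.not_isUnit (by
        rw [Ideal.absNorm_eq_one_iff.mp h, ← Ideal.one_eq_top]; exact isUnit_one)
      omega
    have hNb' : (1 : ℝ) < (absNorm 𝔟 : ℕ) := by exact_mod_cast hNb
    refine ⟨ρ * (1 - 1 / (absNorm 𝔟 : ℕ)), ?_, ?_⟩
    · refine mul_pos hρ ?_
      rw [sub_pos, div_lt_one (by linarith)]
      exact hNb'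
    · have h2 : Tendsto (fun t : ℝ => t / ((absNorm 𝔟 : ℕ) : ℝ)) atTop atTop :=
        tendsto_id.atTop_div_const (by linarith)
      have h3 := hlim.comp h2
      have h4 : Tendsto (fun t : ℝ => ((cop K T t).ncard : ℝ) / t -
          ((cop K T (t / (absNorm 𝔟 : ℕ))).ncard : ℝ) / (t / (absNorm 𝔟 : ℕ)) *
            (1 / ((absNorm 𝔟 : ℕ) : ℝ))) atTop (𝓝 (ρ - ρ * (1 / ((absNorm 𝔟 : ℕ) : ℝ)))) :=
        hlim.sub (h3.mul_const _)
      have h5 : ρ * (1 - 1 / ((absNorm 𝔟 : ℕ) : ℝ)) = ρ - ρ * (1 / ((absNorm 𝔟 : ℕ) : ℝ)) := by ring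
      rw [h5]
      refine h4.congr' ?_
      filter_upwards [eventually_gt_atTop 0] with t ht
      rw [cop_insert T hT' 𝔟 hb hbT t]
      have : ((absNorm 𝔟 : ℕ) : ℝ) ≠ 0 := by linarith
      field_simp

/-- lower linear bound -/
theorem cop_lower (T : Finset (Ideal (𝓞 K))) (hT : ∀ 𝔟 ∈ T, Prime 𝔟) :
    ∃ c t₀ : ℝ, 0 < c ∧ 1 ≤ t₀ ∧ ∀ t, t₀ ≤ t → c * t ≤ ((cop K T t).ncard : ℝ) := by
  obtain ⟨ρ, hρ, hlim⟩ := cop_tendsto T hT
  have h1 : ∀ᶠ t in atTop, ρ / 2 < ((cop K T t).ncard : ℝ) / t :=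
    hlim.eventually (lt_mem_nhds (by linarith))
  obtain ⟨t₁, ht₁⟩ := (h1.and (eventually_ge_atTop 1)).exists_forall_of_atTop
  refine ⟨ρ / 2, max t₁ 1, by linarith, le_max_right _ _, fun t ht => ?_⟩
  obtain ⟨h2, h3⟩ := ht₁ t ((le_max_left _ _).trans ht)
  rw [lt_div_iff₀ (by linarith)] at h2
  exact h2.le

/-- upper linear bound -/
theorem norm_upper : ∃ C : ℝ, ∀ t, 1 ≤ t →
    ((cop K ∅ t).ncard : ℝ) ≤ C * t := by
  obtain ⟨ρ, hρ, hlim⟩ := cop_empty_tendsto (K := K)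
  have h1 : ∀ᶠ t in atTop, ((cop K ∅ t).ncard : ℝ) / t < 2 * ρ :=
    hlim.eventually (gt_mem_nhds (by linarith))
  obtain ⟨t₁, ht₁⟩ := (h1.and (eventually_ge_atTop 1)).exists_forall_of_atTop
  refine ⟨max (2 * ρ) ((cop K ∅ (max t₁ 1)).ncard : ℝ), fun t ht => ?_⟩
  rcases le_total (max t₁ 1) t with h | h
  · obtain ⟨h2, h3⟩ := ht₁ t ((le_max_left _ _).trans h)
    rw [div_lt_iff₀ (by linarith)] at h2
    have : 2 * ρ * t ≤ max (2 * ρ) ((cop K ∅ (max t₁ 1)).ncard : ℝ) * t :=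
      mul_le_mul_of_nonneg_right (le_max_left _ _) (by linarith)
    linarith
  · have hmono : ((cop K ∅ t).ncard : ℝ) ≤ ((cop K ∅ (max t₁ 1)).ncard : ℝ) := by
      have hsub : cop K ∅ t ⊆ cop K ∅ (max t₁ 1) := fun I hI => ⟨hI.1, hI.2.1.trans h, hI.2.2⟩
      exact_mod_cast Set.ncard_le_ncard hsub (cop_finite ∅ _)
    have h5 : ((cop K ∅ (max t₁ 1)).ncard : ℝ) ≤
        max (2 * ρ) ((cop K ∅ (max t₁ 1)).ncard : ℝ) * t := by
      have h6 : ((cop K ∅ (max t₁ 1)).ncard : ℝ) ≤ max (2 * ρ) ((cop K ∅ (max t₁ 1)).ncard : ℝ) :=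
        le_max_right _ _
      have h7 : 0 ≤ ((cop K ∅ (max t₁ 1)).ncard : ℝ) := by positivity
      nlinarith
    linarith

end Pool.Agent.UBT
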