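import Mathlib
import Pool.Agent.Helper27_UBT.Stmts
import Pool.Agent.Helper27_UBT.Count
import Pool.Agent.Helper27_UBT.Dens

/-! # UBT: nonsplit primes in Galois extensions of prime degree -/

open Polynomial NumberField Ideal UniqueFactorizationMonoid

namespace UBT

open Pool.Agent.UBT

section
variable {K L : Type} [Field K] [NumberField K] [Field L] [NumberField L] [Algebra K L]

/-- a prime of `𝓞 K` which is not nonsplit has two primes above it of the same norm -/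
lemma two_primes [IsGalois K L] (hn : (Module.finrank K L).Prime) (v : Ideal (𝓞 K))
    (hv : v.IsPrime) (hv0 : v ≠ ⊥) (hns : ¬ Nonsplit K L v) :
    ∃ P Q : Ideal (𝓞 L), P.IsPrime ∧ Q.IsPrime ∧ P.LiesOver v ∧ Q.LiesOver v ∧ P ≠ Q ∧
      absNorm P = absNorm v ∧ absNorm Q = absNorm v := by
  classical
  unfold Nonsplit at hns
  push Not at hns
  obtain ⟨P, Q, hP, hQ, hPv, hQv, hPQ⟩ := hns
  have hfin : (primesOver v (𝓞 L)).Finite := (Algebra.QuasiFinite.finite_primesOver v)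
  have hcard := ncard_primesOver_mul_ramificationIdxIn_mul_inertiaDegIn v (𝓞 L) Gal(L/K)
  rw [IsGalois.card_aut_eq_finrank K L] at hcard
  have h2 : 1 < (primesOver v (𝓞 L)).ncard := by
    rw [Set.one_lt_ncard_iff hfin]
    exact ⟨P, Q, ⟨hP, hPv⟩, ⟨hQ, hQv⟩, hPQ⟩
  have hdvd : (primesOver v (𝓞 L)).ncard ∣ Module.finrank K L := ⟨_, hcard.symm⟩
  have hncard : (primesOver v (𝓞 L)).ncard = Module.finrank K L := by
    rcases (Nat.dvd_prime hn).mp hdvd with h | h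
    · omega
    · exact h
  have hef : ramificationIdxIn v (𝓞 L) * inertiaDegIn v (𝓞 L) = 1 := by
    rw [hncard] at hcard
    exact Nat.eq_of_mul_eq_mul_left hn.pos (by rw [hcard, mul_one])
  have hf : inertiaDegIn v (𝓞 L) = 1 := Nat.eq_one_of_mul_eq_one_left hef
  refine ⟨P, Q, hP, hQ, hPv, hQv, hPQ, ?_, ?_⟩
  · rw [← absNorm_pow_inertiaDeg v P, ← inertiaDegIn_eq_inertiaDeg v P Gal(L/K), hf, pow_one]
  · rw [← absNorm_pow_inertiaDeg v Q, ← inertiaDegIn_eq_inertiaDeg v Q Gal(L/K), hf, pow_one]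

end

theorem ch3 : CH3Stmt := by
  classical
  intro K L _ _ _ _ _ _ hn B
  by_contra hcon
  push Not at hcon
  -- the small primes
  have hTfin : {v : Ideal (𝓞 K) | Prime v ∧ ∃ p : ℕ, p.Prime ∧ p ≤ B ∧ ((p : ℕ) : 𝓞 K) ∈ v}.Finite := by
    refine (Ideal.finite_setOfPred_absNorm_le (S := 𝓞 K) (B ^ Module.finrank ℚ K)).subset ?_
    rintro v ⟨hv, p, hp, hpB, hpv⟩
    have h1 : absNorm v ∣ absNorm (span {((p : ℕ) : 𝓞 K)}) :=
      absNorm_dvd_absNorm_of_le (by rwa [span_singleton_le_iff_mem])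
    have h2 : absNorm (span {((p : ℕ) : 𝓞 K)}) = p ^ Module.finrank ℚ K := by
      rw [absNorm_span_singleton]
      have : ((p : ℕ) : 𝓞 K) = algebraMap ℤ (𝓞 K) (p : ℤ) := by simp
      rw [this, Algebra.norm_algebraMap, Int.natAbs_pow, Int.natAbs_natCast,
        RingOfIntegers.rank K]
    rw [h2] at h1
    show absNorm v ≤ B ^ Module.finrank ℚ K
    exact (Nat.le_of_dvd (pow_pos hp.pos _) h1).trans (Nat.pow_le_pow_left hpB _)
  set T : Finset (Ideal (𝓞 K)) := hTfin.toFinset with hT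
  have hTprime : ∀ 𝔟 ∈ T, Prime 𝔟 := fun 𝔟 h => ((Set.Finite.mem_toFinset _).mp h).1
  -- good primes split
  have hgood : ∀ 𝔭 : Ideal (𝓞 K), Prime 𝔭 → 𝔭 ∉ T → ∃ PQ : Ideal (𝓞 L) × Ideal (𝓞 L),
      Prime PQ.1 ∧ Prime PQ.2 ∧ PQ.1.LiesOver 𝔭 ∧ PQ.2.LiesOver 𝔭 ∧ PQ.1 ≠ PQ.2 ∧
      absNorm PQ.1 = absNorm 𝔭 ∧ absNorm PQ.2 = absNorm 𝔭 := by
    intro 𝔭 h𝔭 hT𝔭
    have hpr : 𝔭.IsPrime := isPrime_of_prime h𝔭
    have h0 : 𝔭 ≠ ⊥ := h𝔭.ne_zero
    -- residue characteristic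
    obtain ⟨p, hp, hpv⟩ : ∃ p : ℕ, p.Prime ∧ ((p : ℕ) : 𝓞 K) ∈ 𝔭 := by
      have hN : ((absNorm 𝔭 : ℕ) : 𝓞 K) ∈ 𝔭 := absNorm_mem 𝔭
      have hN1 : absNorm 𝔭 ≠ 1 := fun h => hpr.ne_top (absNorm_eq_one_iff.mp h)
      have hN0 : absNorm 𝔭 ≠ 0 := fun h => h0 (absNorm_eq_zero_iff.mp h)
      have : ∀ N : ℕ, N ≠ 0 → ((N : ℕ) : 𝓞 K) ∈ 𝔭 → ∃ p : ℕ, p.Prime ∧ ((p : ℕ) : 𝓞 K) ∈ 𝔭 := by
        intro N
        induction N using Nat.recOnMul with
        | zero => intro h; exact absurd rfl h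
        | one =>
          intro _ h
          exact absurd ((eq_top_iff_one _).mpr (by simpa using h)) hpr.ne_top
        | prime q hq => intro _ h; exact ⟨q, hq, h⟩
        | mul a b iha ihb =>
          intro h0 h
          push_cast at h
          have ha0 : a ≠ 0 := fun h' => h0 (by rw [h', zero_mul])
          have hb0 : b ≠ 0 := fun h' => h0 (by rw [h', mul_zero])
          rcases hpr.mem_or_mem h with h | h
          · exact iha ha0 h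
          · exact ihb hb0 h
      exact this _ hN0 hN
    have hpB : B < p := by
      by_contra hle
      exact hT𝔭 ((Set.Finite.mem_toFinset _).mpr ⟨h𝔭, p, hp, not_lt.mp hle, hpv⟩)
    obtain ⟨P, Q, hP, hQ, hPv, hQv, hPQ, hNP, hNQ⟩ :=
      two_primes hn 𝔭 hpr h0 (hcon p hp hpB 𝔭 hpr hpv)
    have hP0 : P ≠ ⊥ := by
      rintro rfl
      rw [absNorm_bot] at hNP
      exact h0 (absNorm_eq_zero_iff.mp hNP.symm)
    have hQ0 : Q ≠ ⊥ := by
      rintro rfl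
      rw [absNorm_bot] at hNQ
      exact h0 (absNorm_eq_zero_iff.mp hNQ.symm)
    exact ⟨(P, Q), prime_of_isPrime hP0 hP, prime_of_isPrime hQ0 hQ, hPv, hQv, hPQ, hNP, hNQ⟩
  let φ : Ideal (𝓞 K) → Ideal (𝓞 L) × Ideal (𝓞 L) := fun 𝔭 =>
    if h : Prime 𝔭 ∧ 𝔭 ∉ T then (hgood 𝔭 h.1 h.2).choose else (1, 1)
  have hφ : ∀ 𝔭 : Ideal (𝓞 K), Prime 𝔭 → 𝔭 ∉ T →
      Prime (φ 𝔭).1 ∧ Prime (φ 𝔭).2 ∧ (φ 𝔭).1.LiesOver 𝔭 ∧ (φ 𝔭).2.LiesOver 𝔭 ∧
      (φ 𝔭).1 ≠ (φ 𝔭).2 ∧ absNorm (φ 𝔭).1 = absNorm 𝔭 ∧ absNorm (φ 𝔭).2 = absNorm 𝔭 := by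
    intro 𝔭 h1 h2
    have : φ 𝔭 = (hgood 𝔭 h1 h2).choose := dif_pos ⟨h1, h2⟩
    rw [this]
    exact (hgood 𝔭 h1 h2).choose_spec
  -- the two index types
  let X := {I : Ideal (𝓞 K) // I ≠ ⊥ ∧ ∀ 𝔟 ∈ T, ¬ 𝔟 ∣ I}
  let Y := {J : Ideal (𝓞 L) // J ≠ ⊥}
  have hfac : ∀ x : X, ∀ 𝔭 ∈ normalizedFactors x.1, Prime 𝔭 ∧ 𝔭 ∉ T := by
    intro x 𝔭 h
    exact ⟨prime_of_normalized_factor 𝔭 h, fun hT' => x.2.2 𝔭 hT' (dvd_of_mem_normalizedFactors h)⟩
  have hprodK : ∀ x : X, (normalizedFactors x.1).prod = x.1 := fun x =>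
    _root_.prod_normalizedFactors_eq_self x.2.1
  let Ψ : X × X → Multiset (Ideal (𝓞 L)) := fun x =>
    (normalizedFactors x.1.1).map (fun 𝔭 => (φ 𝔭).1) +
      (normalizedFactors x.2.1).map (fun 𝔭 => (φ 𝔭).2)
  have hΨprime : ∀ x, ∀ P ∈ Ψ x, Prime P := by
    intro x P hP
    rcases Multiset.mem_add.mp hP with h | h
    · obtain ⟨𝔭, h𝔭, rfl⟩ := Multiset.mem_map.mp h
      exact (hφ 𝔭 (hfac _ _ h𝔭).1 (hfac _ _ h𝔭).2).1
    · obtain ⟨𝔭, h𝔭, rfl⟩ := Multiset.mem_map.mp h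
      exact (hφ 𝔭 (hfac _ _ h𝔭).1 (hfac _ _ h𝔭).2).2.1
  have hΨ0 : ∀ x, (Ψ x).prod ≠ ⊥ := by
    intro x h
    rw [← zero_eq_bot, Multiset.prod_eq_zero_iff] at h
    exact (hΨprime x 0 h).ne_zero rfl
  let Φ : X × X → Y := fun x => ⟨(Ψ x).prod, hΨ0 x⟩
  have hNΦ : ∀ x x', absNorm (Φ (x, x')).1 = absNorm x.1 * absNorm x'.1 := by
    intro x x'
    show absNorm (Ψ (x, x')).prod = _
    rw [map_multiset_prod, Multiset.map_add, Multiset.prod_add, Multiset.map_map, Multiset.map_map]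
    congr 1
    · conv_rhs => rw [← hprodK x, map_multiset_prod]
      congr 1
      refine Multiset.map_congr rfl fun 𝔭 h𝔭 => ?_
      exact (hφ 𝔭 (hfac _ _ h𝔭).1 (hfac _ _ h𝔭).2).2.2.2.2.2.1
    · conv_rhs => rw [← hprodK x', map_multiset_prod]
      congr 1
      refine Multiset.map_congr rfl fun 𝔭 h𝔭 => ?_
      exact (hφ 𝔭 (hfac _ _ h𝔭).1 (hfac _ _ h𝔭).2).2.2.2.2.2.2
  have hunder1 : ∀ x : X, ∀ 𝔭 ∈ normalizedFactors x.1, ((φ 𝔭).1).under (𝓞 K) = 𝔭 := by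
    intro x 𝔭 h𝔭
    exact ((hφ 𝔭 (hfac _ _ h𝔭).1 (hfac _ _ h𝔭).2).2.2.1).over.symm
  have hunder2 : ∀ x : X, ∀ 𝔭 ∈ normalizedFactors x.1, ((φ 𝔭).2).under (𝓞 K) = 𝔭 := by
    intro x 𝔭 h𝔭
    exact ((hφ 𝔭 (hfac _ _ h𝔭).1 (hfac _ _ h𝔭).2).2.2.2.1).over.symm
  have hfilt1 : ∀ x : X × X, (Ψ x).filter (fun P => P = (φ (P.under (𝓞 K))).1) =
      (normalizedFactors x.1.1).map (fun 𝔭 => (φ 𝔭).1) := by
    intro x
    rw [Multiset.filter_add]
    have e1 : ((normalizedFactors x.1.1).map (fun 𝔭 => (φ 𝔭).1)).filter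
        (fun P => P = (φ (P.under (𝓞 K))).1) =
        (normalizedFactors x.1.1).map (fun 𝔭 => (φ 𝔭).1) := by
      rw [Multiset.filter_eq_self]
      intro P hP
      obtain ⟨𝔭, h𝔭, rfl⟩ := Multiset.mem_map.mp hP
      rw [hunder1 _ _ h𝔭]
    have e2 : ((normalizedFactors x.2.1).map (fun 𝔭 => (φ 𝔭).2)).filter
        (fun P => P = (φ (P.under (𝓞 K))).1) = 0 := by
      rw [Multiset.filter_eq_nil]
      intro P hP
      obtain ⟨𝔭, h𝔭, rfl⟩ := Multiset.mem_map.mp hP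
      rw [hunder2 _ _ h𝔭]
      exact fun h => (hφ 𝔭 (hfac _ _ h𝔭).1 (hfac _ _ h𝔭).2).2.2.2.2.1 h.symm
    rw [e1, e2, add_zero]
  have hfilt2 : ∀ x : X × X, (Ψ x).filter (fun P => ¬ P = (φ (P.under (𝓞 K))).1) =
      (normalizedFactors x.2.1).map (fun 𝔭 => (φ 𝔭).2) := by
    intro x
    rw [Multiset.filter_add]
    have e1 : ((normalizedFactors x.1.1).map (fun 𝔭 => (φ 𝔭).1)).filter
        (fun P => ¬ P = (φ (P.under (𝓞 K))).1) = 0 := by
      rw [Multiset.filter_eq_nil]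
      intro P hP
      obtain ⟨𝔭, h𝔭, rfl⟩ := Multiset.mem_map.mp hP
      rw [hunder1 _ _ h𝔭]
      simp
    have e2 : ((normalizedFactors x.2.1).map (fun 𝔭 => (φ 𝔭).2)).filter
        (fun P => ¬ P = (φ (P.under (𝓞 K))).1) =
        (normalizedFactors x.2.1).map (fun 𝔭 => (φ 𝔭).2) := by
      rw [Multiset.filter_eq_self]
      intro P hP
      obtain ⟨𝔭, h𝔭, rfl⟩ := Multiset.mem_map.mp hP
      rw [hunder2 _ _ h𝔭]
      exact fun h => (hφ 𝔭 (hfac _ _ h𝔭).1 (hfac _ _ h𝔭).2).2.2.2.2.1 h.symm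
    rw [e1, e2, zero_add]
  have hback1 : ∀ x : X, ((normalizedFactors x.1).map (fun 𝔭 => (φ 𝔭).1)).map
      (fun P => P.under (𝓞 K)) = normalizedFactors x.1 := by
    intro x
    rw [Multiset.map_map]
    conv_rhs => rw [← Multiset.map_id (normalizedFactors x.1)]
    exact Multiset.map_congr rfl fun 𝔭 h𝔭 => hunder1 x 𝔭 h𝔭
  have hback2 : ∀ x : X, ((normalizedFactors x.1).map (fun 𝔭 => (φ 𝔭).2)).map
      (fun P => P.under (𝓞 K)) = normalizedFactors x.1 := by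
    intro x
    rw [Multiset.map_map]
    conv_rhs => rw [← Multiset.map_id (normalizedFactors x.1)]
    exact Multiset.map_congr rfl fun 𝔭 h𝔭 => hunder2 x 𝔭 h𝔭
  have hΦinj : Function.Injective Φ := by
    intro x y hxy
    have h1 : (Ψ x).prod = (Ψ y).prod := congrArg Subtype.val hxy
    have h2 : Ψ x = Ψ y := by
      have e1 : normalizedFactors (Ψ x).prod = Ψ x :=
        normalizedFactors_prod_of_prime (hΨprime x)
      have e2 : normalizedFactors (Ψ y).prod = Ψ y :=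
        normalizedFactors_prod_of_prime (hΨprime y)
      rw [← e1, ← e2, h1]
    have h3 : normalizedFactors x.1.1 = normalizedFactors y.1.1 := by
      rw [← hback1 x.1, ← hback1 y.1, ← hfilt1 x, ← hfilt1 y, h2]
    have h4 : normalizedFactors x.2.1 = normalizedFactors y.2.1 := by
      rw [← hback2 x.2, ← hback2 y.2, ← hfilt2 x, ← hfilt2 y, h2]
    refine Prod.ext (Subtype.ext ?_) (Subtype.ext ?_)
    · rw [← hprodK x.1, ← hprodK y.1, h3]
    · rw [← hprodK x.2, ← hprodK y.2, h4]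
  -- counting functions
  have hcntX : ∀ t : ℝ, {x : X | ((absNorm x.1 : ℕ) : ℝ) ≤ t}.ncard = (cop K T t).ncard := by
    intro t
    have : cop K T t = Subtype.val '' {x : X | ((absNorm x.1 : ℕ) : ℝ) ≤ t} := by
      ext I
      constructor
      · intro hI
        exact ⟨⟨I, hI.1, hI.2.2⟩, hI.2.1, rfl⟩
      · rintro ⟨x, hx, rfl⟩
        exact ⟨x.2.1, hx, x.2.2⟩
    rw [this, Set.ncard_image_of_injective _ Subtype.val_injective]
  have hcntY : ∀ t : ℝ, {y : Y | ((absNorm y.1 : ℕ) : ℝ) ≤ t}.ncard = (cop L ∅ t).ncard := by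
    intro t
    have : cop L ∅ t = Subtype.val '' {y : Y | ((absNorm y.1 : ℕ) : ℝ) ≤ t} := by
      ext I
      constructor
      · intro hI
        exact ⟨⟨I, hI.1⟩, hI.2.1, rfl⟩
      · rintro ⟨x, hx, rfl⟩
        exact ⟨x.2, hx, by simp⟩
    rw [this, Set.ncard_image_of_injective _ Subtype.val_injective]
  obtain ⟨c, t₀, hc, ht0, hlow⟩ := cop_lower T hTprime
  obtain ⟨C, hC⟩ := norm_upper (K := K)
  obtain ⟨C', hC'⟩ := norm_upper (K := L)
  refine no_pair_injection (X := X) (Y := Y) (fun x => absNorm x.1) (fun y => absNorm y.1)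
    ?_ ?_ ?_ c C C' t₀ hc ht0 ?_ ?_ ?_ Φ hΦinj hNΦ
  · intro x
    exact Nat.one_le_iff_ne_zero.mpr fun h => x.2.1 (absNorm_eq_zero_iff.mp h)
  · intro t
    exact (finite_norm_le t).preimage Subtype.val_injective.injOn
  · intro t
    exact (finite_norm_le t).preimage Subtype.val_injective.injOn
  · intro t ht
    rw [hcntX]
    exact hlow t ht
  · intro t ht
    rw [hcntX]
    refine le_trans ?_ (hC t ht)
    have hsub : cop K T t ⊆ cop K ∅ t := fun I hI => ⟨hI.1, hI.2.1, by simp⟩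
    exact_mod_cast Set.ncard_le_ncard hsub (cop_finite ∅ t)
  · intro t ht
    rw [hcntY]
    exact hC' t ht

end UBT
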