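import Mathlib
import Pool.Agent.Helper27_UBT.CH3
import Pool.Agent.Helper9_UBT.Cheb
import Pool.Agent.Helper9_UBT.Glb
import Pool.Agent.Helper51_UBT.Her
import Pool.Agent.Helper51_UBT.Iso
import Pool.Agent.Helper76_UBT.BC1
import Pool.Agent.Helper76_UBT.Trans
import Pool.Agent.Helper81_UBT.Bc2
import Pool.Agent.Helper81_UBT.Ext1
import Pool.Agent.Helper81_UBT.Ext2

/-! # UBT: assembly -/

open Polynomial NumberField IsDedekindDomain
open H58Q

namespace UBT

/-- the bound at one place -/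
def bd (p n g D d : ℕ) : ℕ := 2 ^ ((p ^ (2 * (n.factorial * (D * d)))) ^ (3 * g + 2))

/-- the rescaled polynomial -/
lemma rescale_eq {E : Type} [Field E] (f : E[X]) (hf : f.Monic) (hs : f.Splits) (e s u α : E)
    (hu : u ≠ 0) (hsq : s ^ 2 = e * u ^ f.natDegree) (he : e ≠ 0) :
    C ((s ^ 2)⁻¹) * (C e * f).comp (C u * X + C α) =
      ((f.roots.map (fun a => (a - α) / u)).map (fun b => X - C b)).prod := by
  have h1 : f = (f.roots.map (fun a => X - C a)).prod := by
    conv_lhs => rw [hs.eq_prod_roots, hf.leadingCoeff, C_1, one_mul]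
  have hcard : f.roots.card = f.natDegree := by
    exact hs.natDegree_eq_card_roots.symm
  have h2 : f.comp (C u * X + C α) = C (u ^ f.natDegree) *
      ((f.roots.map (fun a => (a - α) / u)).map (fun b => X - C b)).prod := by
    conv_lhs => rw [h1]
    rw [multiset_prod_comp, Multiset.map_map, ← hcard, Multiset.map_map]
    have h3 : ∀ M : Multiset E, (M.map ((fun p : E[X] => p.comp (C u * X + C α)) ∘
        fun a => X - C a)).prod = C (u ^ M.card) *
          (M.map ((fun b => X - C b) ∘ fun a => (a - α) / u)).prod := by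
      intro M
      induction M using Multiset.induction_on with
      | empty => simp
      | cons a M ih =>
        rw [Multiset.map_cons, Multiset.prod_cons, ih, Multiset.map_cons, Multiset.prod_cons,
          Multiset.card_cons, pow_succ, C_mul]
        have h4 : (X - C a : E[X]).comp (C u * X + C α) = C u * (X - C ((a - α) / u)) := by
          rw [sub_comp, X_comp, C_comp, mul_sub, ← C_mul, mul_div_cancel₀ _ hu, C_sub]
          ring
        simp only [Function.comp_apply]
        rw [h4]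
        ring
    exact h3 f.roots
  rw [mul_comp, C_comp, h2, hsq]
  rw [← mul_assoc, ← mul_assoc, ← C_mul, ← C_mul]
  have : (e * u ^ f.natDegree)⁻¹ * (e * u ^ f.natDegree) = 1 :=
    inv_mul_cancel₀ (mul_ne_zero he (pow_ne_zero _ hu))
  rw [mul_assoc, this, C_1, one_mul]

theorem primePart (hDed : DedStmt) (hLoc : LocStmt) (K L : Type) [Field K] [NumberField K]
    [Field L] [NumberField L] [Algebra K L] (n g D : ℕ) (hn : n.Prime) (hng : n = 2 * g + 1)
    (hfin : Module.finrank K L = n) (p : ℕ) (hp : p.Prime) (hp2 : p ≠ 2) (v : Ideal (𝓞 K))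
    (hv : v.IsPrime) (hpv : ((p : ℕ) : 𝓞 K) ∈ v) (hns : Nonsplit K L v)
    (θ : L) (hθ : θ ∉ (algebraMap K L).range)
    (K₁ : Type) [Field K₁] [NumberField K₁] [Algebra K K₁] (hD : Module.finrank K K₁ ≤ D)
    (e : K₁) (he : e ≠ 0) (Cv : OddCurve K₁)
    (hC : Cv.f = C e * (minpoly K θ).map (algebraMap K K₁)) (c : Cv.Jac)
    (hc : IsOfFinOrder c) :
    ∃ m a : ℕ, orderOf c = m * p ^ a ∧ 1 ≤ m ∧ m ≤ bd p n g D (Module.finrank ℚ K) := by
  classical
  have hθint : IsIntegral K θ := IsIntegral.of_finite K θ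
  have hmon : (minpoly K θ).Monic := minpoly.monic hθint
  have hdegf : (minpoly K θ).natDegree = n := by
    have h1 : (minpoly K θ).natDegree ∣ n := by rw [← hfin]; exact minpoly.degree_dvd hθint
    rcases (Nat.dvd_prime hn).mp h1 with h | h
    · exact absurd (minpoly.natDegree_eq_one_iff.mp h) hθ
    · exact h
  have hn3 : 3 ≤ n := by
    have := hn.two_le; omega
  -- the splitting field
  obtain ⟨E₁, _, _, _, hspl₁, hdeg₁⟩ := ext1 K₁ ((minpoly K θ).map (algebraMap K K₁))
    (hmon.map _).ne_zero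
  rw [hmon.natDegree_map, hdegf] at hdeg₁
  let _ : Algebra K E₁ := ((algebraMap K₁ E₁).comp (algebraMap K K₁)).toAlgebra
  have _ : IsScalarTower K K₁ E₁ := IsScalarTower.of_algebraMap_eq fun _ => rfl
  have hmap₁ : ((minpoly K θ).map (algebraMap K K₁)).map (algebraMap K₁ E₁) =
      (minpoly K θ).map (algebraMap K E₁) := by rw [Polynomial.map_map]; rfl
  rw [hmap₁] at hspl₁
  set f₁ := (minpoly K θ).map (algebraMap K E₁) with hf₁
  have hf₁mon : f₁.Monic := hmon.map _
  have hf₁deg : f₁.natDegree = n := by rw [hf₁, hmon.natDegree_map, hdegf]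
  have hsep : (minpoly K θ).Separable := (minpoly.irreducible hθint).separable
  have hf₁sep : f₁.Separable := hsep.map
  have hnodup : f₁.roots.Nodup := nodup_roots hf₁sep
  have hcard : f₁.roots.card = n := by rw [← hf₁deg]; exact hspl₁.natDegree_eq_card_roots.symm
  obtain ⟨α, hα, β, hβ, hαβ⟩ : ∃ α ∈ f₁.roots, ∃ β ∈ f₁.roots, α ≠ β := by
    have : 1 < f₁.roots.toFinset.card := by
      rw [Multiset.toFinset_card_of_nodup hnodup, hcard]; omega
    obtain ⟨α, hα, β, hβ, h⟩ := Finset.one_lt_card.mp this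
    exact ⟨α, Multiset.mem_toFinset.mp hα, β, Multiset.mem_toFinset.mp hβ, h⟩
  -- the square root
  obtain ⟨E, _, _, _, s, hs, hdeg₂⟩ := ext2 E₁ (algebraMap K₁ E₁ e * (α - β) ^ n)
  let _ : Algebra K₁ E := ((algebraMap E₁ E).comp (algebraMap K₁ E₁)).toAlgebra
  have _ : IsScalarTower K₁ E₁ E := IsScalarTower.of_algebraMap_eq fun _ => rfl
  let _ : Algebra K E := ((algebraMap E₁ E).comp (algebraMap K E₁)).toAlgebra
  have _ : IsScalarTower K E₁ E := IsScalarTower.of_algebraMap_eq fun _ => rfl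
  have _ : IsScalarTower K K₁ E := IsScalarTower.of_algebraMap_eq fun _ => rfl
  set fE := (minpoly K θ).map (algebraMap K E) with hfE
  have hfE₁ : fE = f₁.map (algebraMap E₁ E) := by rw [hf₁, Polynomial.map_map]; rfl
  have hfEmon : fE.Monic := hmon.map _
  have hfEspl : fE.Splits := by rw [hfE₁]; exact hspl₁.map _
  have hfEdeg : fE.natDegree = n := by rw [hfE, hmon.natDegree_map, hdegf]
  have hfEsep : fE.Separable := hsep.map
  have hfEnodup : fE.roots.Nodup := nodup_roots hfEsep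
  set u : E := algebraMap E₁ E (α - β) with hu
  have hu0 : u ≠ 0 := by
    rw [hu, Ne, FaithfulSMul.algebraMap_eq_zero_iff]
    exact sub_ne_zero.mpr hαβ
  set αE : E := algebraMap E₁ E α with hαE
  set βE : E := algebraMap E₁ E β with hβE
  set eE : E := algebraMap K₁ E e with heE
  have heE0 : eE ≠ 0 := by rw [heE, Ne, FaithfulSMul.algebraMap_eq_zero_iff]; exact he
  have hs' : s ^ 2 = eE * u ^ fE.natDegree := by
    rw [hs, map_mul, map_pow, hfEdeg]; rfl
  have hs0 : s ≠ 0 := by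
    intro h
    rw [h] at hs'
    have : eE * u ^ fE.natDegree ≠ 0 := mul_ne_zero heE0 (pow_ne_zero _ hu0)
    exact this (by rw [← hs']; ring)
  have hrootE : ∀ a : E₁, a ∈ f₁.roots → aeval (algebraMap E₁ E a) (minpoly K θ) = 0 := by
    intro a ha
    have h1 : aeval a (minpoly K θ) = 0 := by
      have := (mem_roots hf₁mon.ne_zero).mp ha
      rwa [IsRoot, hf₁, eval_map_algebraMap] at this
    rw [aeval_algebraMap_apply, h1, map_zero]
  have hαroot := hrootE α hα
  have hβroot := hrootE β hβ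
  have hαβE : αE ≠ βE := fun h => hαβ ((algebraMap E₁ E).injective h)
  have huE : u = αE - βE := by rw [hu, map_sub]
  -- the good model
  set FE : E[X] := Cv.f.map (algebraMap K₁ E) with hFE
  have hFE' : FE = C eE * fE := by
    rw [hFE, hC, Polynomial.map_mul, map_C, Polynomial.map_map]; rfl
  set G : E[X] := C ((s ^ 2)⁻¹) * FE.comp (C u * X + C αE) with hG
  have hGeq : G = ((fE.roots.map (fun a => (a - αE) / u)).map (fun b => X - C b)).prod := by
    rw [hG, hFE']
    exact rescale_eq fE hfEmon hfEspl eE s u αE hu0 hs' heE0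
  have hGroots : G.roots = fE.roots.map (fun a => (a - αE) / u) := by
    rw [hGeq]; exact roots_multiset_prod_X_sub_C _
  have hGmon : G.Monic := by rw [hGeq]; exact monic_multiset_prod_of_monic _ _ fun b _ => monic_X_sub_C b
  have hGdeg : G.natDegree = 2 * g + 1 := by
    rw [hGeq, natDegree_multiset_prod_X_sub_C_eq_card, Multiset.card_map,
      ← hfEspl.natDegree_eq_card_roots, hfEdeg, hng]
  have hGspl : G.Splits := by
    rw [splits_iff_card_roots, hGroots, Multiset.card_map, ← hfEspl.natDegree_eq_card_roots,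
      hfEdeg, hGdeg, hng]
  have hGnodup : G.roots.Nodup := by
    rw [hGroots]
    refine hfEnodup.map_on ?_
    intro a _ b _ h
    field_simp at h
    simpa using h
  have hGsep : G.Separable := (nodup_roots_iff_of_splits hGmon.ne_zero hGspl).mp hGnodup
  -- the prime of `E`
  obtain ⟨⟨P, hPprime, hPv⟩⟩ := Ideal.nonempty_primesOver (S := 𝓞 E) v
  have hpP : ((p : ℕ) : 𝓞 E) ∈ P := by
    have h1 : ((p : ℕ) : 𝓞 K) ∈ P.under (𝓞 K) := by rw [← hPv.over]; exact hpv
    have h2 : algebraMap (𝓞 K) (𝓞 E) ((p : ℕ) : 𝓞 K) ∈ P := h1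
    rwa [map_natCast] at h2
  have hP0 : P ≠ ⊥ := by
    rintro rfl
    rw [Ideal.mem_bot, Nat.cast_eq_zero] at hpP
    exact hp.ne_zero hpP
  let w : HeightOneSpectrum (𝓞 E) := ⟨P, hPprime, hP0⟩
  have hw : w.asIdeal.LiesOver v := hPv
  have hrootfE : ∀ a ∈ fE.roots, aeval a (minpoly K θ) = 0 := by
    intro a ha
    have := (mem_roots hfEmon.ne_zero).mp ha
    rwa [IsRoot, hfE, eval_map_algebraMap] at this
  have hval : ∀ a b : E, a ∈ fE.roots → b ∈ fE.roots → a ≠ b →
      w.valuation E ((a - b) / u) = 1 := by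
    intro a b ha hb hab
    have h1 := H76UBT.trans K L E (by rw [hfin]; exact hn) v hv hns w hw θ hθ hfEspl a b αE βE
      (hrootfE a ha) (hrootfE b hb) hαroot hβroot hab hαβE
    rw [map_div₀, h1, huE]
    refine div_self ?_
    rw [Ne, map_eq_zero]
    exact sub_ne_zero.mpr hαβE
  have hαmem : αE ∈ fE.roots := by
    rw [mem_roots hfEmon.ne_zero, IsRoot, hfE, eval_map_algebraMap]
    exact hαroot
  have hint : ∀ a ∈ G.roots, w.valuation E a ≤ 1 := by
    intro a ha
    rw [hGroots] at ha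
    obtain ⟨a', ha', rfl⟩ := Multiset.mem_map.mp ha
    by_cases h : a' = αE
    · rw [h, sub_self, zero_div, map_zero]; exact zero_le_one
    · exact (hval a' αE ha' hαmem h).le
  have hdiff : ∀ a ∈ G.roots, ∀ b ∈ G.roots, a ≠ b → w.valuation E (a - b) = 1 := by
    intro a ha b hb hab
    rw [hGroots] at ha hb
    obtain ⟨a', ha', rfl⟩ := Multiset.mem_map.mp ha
    obtain ⟨b', hb', rfl⟩ := Multiset.mem_map.mp hb
    have h : a' ≠ b' := fun h => hab (by rw [h])
    have h2 : (a' - αE) / u - (b' - αE) / u = (a' - b') / u := by ring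
    rw [h2]
    exact hval a' b' ha' hb' h
  -- the class groups
  have _ : Fact (Odd G.natDegree) := ⟨by rw [hGdeg]; exact ⟨g, rfl⟩⟩
  have _ : Fact p.Prime := ⟨hp⟩
  have hdR : IsDedekindDomain (Q K₁ Cv.f) := hDed K₁ Cv.f two_ne_zero Cv.sqfree
  have hdS : IsDedekindDomain (Q E G) := hDed E G two_ne_zero hGsep.squarefree
  obtain ⟨iso⟩ := Pool.Agent.UBT51.iso E FE u s αE hu0 hs0
  let ψ : Q K₁ Cv.f →+* Q E G := (iso : Q E FE →+* Q E G).comp (Q.map (algebraMap K₁ E) Cv.f)
  have hψinj : Function.Injective ψ := by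
    intro a b hab
    exact Q.map_injective _ _ (algebraMap K₁ E).injective (iso.injective hab)
  have hψ : ∀ I : Ideal (Q K₁ Cv.f), I ≠ ⊥ → (I.map ψ).IsPrincipal → I.IsPrincipal := by
    intro I hI h
    refine H76UBT.bc1 K₁ E (algebraMap K₁ E) Cv.f Cv.odd I hI ?_
    have h1 : I.map ψ = (I.map (Q.map (algebraMap K₁ E) Cv.f)).map (iso : Q E FE →+* Q E G) := by
      rw [Ideal.map_map]
    have h2 : I.map (Q.map (algebraMap K₁ E) Cv.f) =
        (I.map ψ).map (iso.symm : Q E G →+* Q E FE) := by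
      have hid : ((iso.symm : Q E G →+* Q E FE)).comp (iso : Q E FE →+* Q E G) =
          RingHom.id (Q E FE) := RingHom.ext fun x => iso.symm_apply_apply x
      rw [h1, Ideal.map_map, hid, Ideal.map_id]
    rw [h2]
    obtain ⟨z, hz⟩ := h.principal
    refine ⟨⟨iso.symm z, ?_⟩⟩
    rw [hz, Ideal.submodule_span_eq, Ideal.map_span, Set.image_singleton, Ideal.submodule_span_eq]
    rfl
  obtain ⟨c', hc'⟩ := bc2 (Q K₁ Cv.f) (Q E G) ψ hψinj hψ c
  have hc'fin : IsOfFinOrder c' := by
    rw [← orderOf_pos_iff, hc']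
    exact hc.orderOf_pos
  obtain ⟨m, a, hma, hm1, hm⟩ := H9.glb hLoc E w p hp2 hpP G g hGmon hGdeg hGspl hGsep hint
    hdiff c' hc'fin
  refine ⟨m, a, by rw [← hc', hma], hm1, hm.trans ?_⟩
  have hrank : Module.finrank ℚ E ≤ 2 * (n.factorial * (D * Module.finrank ℚ K)) := by
    have e1 : Module.finrank ℚ E = Module.finrank ℚ E₁ * Module.finrank E₁ E :=
      (Module.finrank_mul_finrank ℚ E₁ E).symm
    have e2 : Module.finrank ℚ E₁ = Module.finrank ℚ K₁ * Module.finrank K₁ E₁ :=
      (Module.finrank_mul_finrank ℚ K₁ E₁).symm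
    have e3 : Module.finrank ℚ K₁ = Module.finrank ℚ K * Module.finrank K K₁ :=
      (Module.finrank_mul_finrank ℚ K K₁).symm
    rw [e1, e2, e3]
    calc Module.finrank ℚ K * Module.finrank K K₁ * Module.finrank K₁ E₁ * Module.finrank E₁ E
        ≤ Module.finrank ℚ K * D * n.factorial * 2 := by gcongr
      _ = 2 * (n.factorial * (D * Module.finrank ℚ K)) := by ring
  unfold bd
  have hp1 : 1 ≤ p := hp.one_lt.le
  gcongr
  · norm_num

/-- the bound for a fixed root field -/
theorem fixedField (hDed : DedStmt) (hLoc : LocStmt) (K L : Type) [Field K] [NumberField K]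
    [Field L] [NumberField L] [Algebra K L] (n D : ℕ) (hn : n.Prime) (hn2 : n ≠ 2)
    (hfin : Module.finrank K L = n) :
    ∃ B : ℕ, ∀ θ : L, θ ∉ (algebraMap K L).range →
      ∀ (K₁ : Type) [Field K₁] [NumberField K₁] [Algebra K K₁], Module.finrank K K₁ ≤ D →
      ∀ e : K₁, e ≠ 0 → ∀ C : OddCurve K₁,
        C.f = Polynomial.C e * (minpoly K θ).map (algebraMap K K₁) →
        ∀ c : C.Jac, IsOfFinOrder c → orderOf c ≤ B := by
  obtain ⟨g, hg⟩ : Odd n := hn.odd_of_ne_two hn2
  have hcheb : ChebStmt := H9.cheb ch3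
  obtain ⟨p, hp, hp2, v, hv, hpv, hns⟩ := hcheb K L (by rw [hfin]; exact hn) 2
  obtain ⟨q, hq, hpq, v', hv', hqv, hns'⟩ := hcheb K L (by rw [hfin]; exact hn) p
  refine ⟨bd p n g D (Module.finrank ℚ K) * bd q n g D (Module.finrank ℚ K), ?_⟩
  intro θ hθ K₁ _ _ _ hD e he C hC c hc
  obtain ⟨m, a, h1, h2, h3⟩ := primePart hDed hLoc K L n g D hn hg hfin p hp (by omega) v hv hpv
    hns θ hθ K₁ hD e he C hC c hc
  obtain ⟨m', a', h1', h2', h3'⟩ := primePart hDed hLoc K L n g D hn hg hfin q hq (by omega) v'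
    hv' hqv hns' θ hθ K₁ hD e he C hC c hc
  have hdvd : p ^ a ∣ m' := by
    have h4 : p ^ a ∣ m' * q ^ a' := by rw [← h1', h1]; exact dvd_mul_left _ _
    have hcop : Nat.Coprime (p ^ a) (q ^ a') :=
      Nat.Coprime.pow _ _ ((Nat.coprime_primes hp hq).mpr (by omega))
    exact hcop.dvd_of_dvd_mul_right h4
  have hle : p ^ a ≤ m' := Nat.le_of_dvd (by omega) hdvd
  rw [h1]
  exact Nat.mul_le_mul h3 (hle.trans h3')

theorem final (hDed : DedStmt) (hLoc : LocStmt) : FinalStmt := by
  classical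
  intro K _ _ n D Δ hn hn2
  obtain ⟨S, hSfin, hS⟩ := Pool.Agent.UBT51.her K Δ
  have hB : ∀ F : IntermediateField K (AlgebraicClosure K), F ∈ S → ∃ B : ℕ,
      Module.finrank K F = n →
      ∀ (L : Type) [Field L] [NumberField L] [Algebra K L], Nonempty (L ≃ₐ[K] F) →
      ∀ θ : L, θ ∉ (algebraMap K L).range →
      ∀ (K₁ : Type) [Field K₁] [NumberField K₁] [Algebra K K₁], Module.finrank K K₁ ≤ D →
      ∀ e : K₁, e ≠ 0 → ∀ C : OddCurve K₁,
        C.f = Polynomial.C e * (minpoly K θ).map (algebraMap K K₁) →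
        ∀ c : C.Jac, IsOfFinOrder c → orderOf c ≤ B := by
    intro F hF
    have _ : FiniteDimensional K F := hSfin F hF
    have _ : NumberField F := NumberField.of_module_finite K F
    by_cases hfin : Module.finrank K F = n
    · obtain ⟨B, hB⟩ := fixedField hDed hLoc K F n D hn hn2 hfin
      refine ⟨B, fun _ L _ _ _ ⟨φ⟩ θ hθ K₁ _ _ _ hD e he C hC c hc => ?_⟩
      refine hB (φ θ) ?_ K₁ hD e he C ?_ c hc
      · rintro ⟨x, hx⟩
        exact hθ ⟨x, φ.injective (by rw [← hx, AlgEquiv.commutes])⟩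
      · rw [hC]
        congr 2
        exact (minpoly.algEquiv_eq φ θ).symm
    · exact ⟨0, fun h => absurd h hfin⟩
  choose B hB using hB
  refine ⟨∑ F ∈ S.attach, B F.1 F.2, ?_⟩
  intro L _ _ _ hfin hdisc θ hθ K₁ _ _ _ hD e he C hC c hc
  obtain ⟨F, hF, ⟨φ⟩⟩ := hS L hdisc
  have h1 : Module.finrank K F = n := by rw [← hfin]; exact φ.toLinearEquiv.finrank_eq.symm
  refine (hB F hF h1 L ⟨φ⟩ θ hθ K₁ hD e he C hC c hc).trans ?_
  exact Finset.single_le_sum (f := fun F : {x // x ∈ S} => B F.1 F.2) (fun _ _ => Nat.zero_le _)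
    (Finset.mem_attach S ⟨F, hF⟩)

end UBT
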